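import Mathlib

open Set

namespace Pool.Agent.Results.MP_0e3695_co.NoMaj

/-- at most half of the `G`-neighbours of every vertex lie in its own part -/
def Maj {V : Type} (G : SimpleGraph V) (c : V → Fin 3) : Prop :=
  ∀ v, 2 * {u ∈ G.neighborSet v | c u = c v}.ncard ≤ (G.neighborSet v).ncard

lemma dom {V : Type} [Finite V] {G : SimpleGraph V} {c : V → Fin 3} (h : Maj G c) (v) (X Y : Set V) {m}
    (h1 : X ⊆ G.neighborSet v) (h2 : G.neighborSet v ⊆ X ∪ Y) (h3 : Y.ncard < X.ncard) (h4 : ∀ x ∈ X, c x = m) :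
    c v ≠ m := fun e => by
  have a := ncard_le_ncard (show X ⊆ {u ∈ G.neighborSet v | c u = c v} from fun x hx => ⟨h1 hx, e ▸ h4 x hx⟩)
  have := (ncard_le_ncard h2).trans (ncard_union_le X Y)
  have := h v
  omega

variable (s : ℕ)
abbrev H := Fin (3 * (s + 2))
abbrev P := {A : Set (H s) // A.ncard = s + 2}
abbrev V := H s ⊕ P s × (Fin s ⊕ Fin s ⊕ Fin (s + 1))
variable {s}
abbrev z1 (A : P s) (j : Fin s) : V s := .inr (A, .inl j)
abbrev z2 (A : P s) (j : Fin s) : V s := .inr (A, .inr (.inl j))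
abbrev z3 (A : P s) (j : Fin (s + 1)) : V s := .inr (A, .inr (.inr j))
abbrev hb (A : P s) : Set (V s) := Sum.inl '' A.1
def r : V s → V s → Prop
  | .inr (A, .inr (.inr _)), .inl x => x ∈ A.1
  | .inr (A, .inr (.inl _)), .inr (B, .inr (.inr _)) => A = B
  | .inr (A, .inl _), .inr (B, .inr (.inl _)) => A = B
  | _, _ => False
def b : V s → V s → Prop
  | .inr (A, .inr (.inl _)), .inl x => x ∈ A.1
  | .inr (A, .inl _), .inl x => x ∈ A.1
  | .inr (A, .inr (.inr _)), .inr (B, .inl _) => A = B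
  | _, _ => False

lemma c1 (A : P s) : (range (z1 A)).ncard = s := by rw [ncard_range_of_injective fun _ _ => by simp]; simp
lemma c2 (A : P s) : (range (z2 A)).ncard = s := by rw [ncard_range_of_injective fun _ _ => by simp]; simp
lemma c3 (A : P s) : (range (z3 A)).ncard = s + 1 := by rw [ncard_range_of_injective fun _ _ => by simp]; simp
lemma c0 (A : P s) : (hb A).ncard = s + 2 := by
  rw [ncard_image_of_injective _ Sum.inl_injective, A.2]

theorem result (k : ℕ) : ∃ (V : Type) (_ : Finite V) (R B : SimpleGraph V), Disjoint R B ∧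
    (∀ v, k ≤ (R.neighborSet v).ncard ∧ k ≤ (B.neighborSet v).ncard) ∧ ¬∃ c : V → Fin 3, Maj R c ∧ Maj B c := by
  refine ⟨V (2 * k + 1), inferInstance, .fromRel r, .fromRel b, ?_, fun v => ?_, fun ⟨c, hR, hB⟩ => ?_⟩
  · rw [SimpleGraph.disjoint_left]
    rintro (x | ⟨A, i | i | i⟩) (y | ⟨B, j | j | j⟩) <;> simp [r, b]
  · have q : ∀ {X N : Set (V (2 * k + 1))} {n}, X.ncard = n → 2 * k + 1 ≤ n → X ⊆ N → k ≤ N.ncard :=
      fun a b c => by have := ncard_le_ncard c; omega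
    rcases v with x | ⟨A, i | i | i⟩
    · obtain ⟨A, h1, -, h2⟩ := Set.exists_subsuperset_card_eq (subset_univ {x}) (n := 2 * k + 1 + 2)
        (by simp) (by simp [ncard_univ])
      have := h1 (mem_singleton x)
      exact ⟨q (c3 ⟨A, h2⟩) (by omega) (by simp [range_subset_iff, r, this]),
        q (c1 ⟨A, h2⟩) le_rfl (by simp [range_subset_iff, b, this])⟩
    · exact ⟨q (c2 A) le_rfl (by simp [range_subset_iff, r]), q (c3 A) (by omega) (by simp [range_subset_iff, b])⟩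
    · exact ⟨q (c1 A) le_rfl (by simp [range_subset_iff, r]), q (c0 A) (by omega) fun _ ⟨x, h, e⟩ => by
        simpa [← e, b] using h⟩
    · exact ⟨q (c2 A) le_rfl (by simp [range_subset_iff, r]), q (c1 A) le_rfl (by simp [range_subset_iff, b])⟩
  obtain ⟨a, ha⟩ := Fintype.exists_le_card_fiber_of_mul_le_card (fun x => c (.inl x)) (n := 2 * k + 1 + 2) (by simp)
  obtain ⟨A, m⟩ : ∃ A : P (2 * k + 1), ∀ x ∈ hb A, c x = a := by
    obtain ⟨A0, h1, h2⟩ := Finset.exists_subset_card_eq ha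
    exact ⟨⟨A0, by simpa using h2⟩, fun _ ⟨x, h, e⟩ => e ▸ (Finset.mem_filter.1 (h1 h)).2⟩
  have a1 := fun j => dom hB (z1 A j) (hb A) (range (z3 A)) (fun _ ⟨x, h, e⟩ => by simpa [← e, b] using h)
    (by rintro (y | ⟨B, j | j | j⟩) <;> simp [b, eq_comm]) (by simp [c0, c3]) m
  have a2 := fun j => dom hB (z2 A j) (hb A) ∅ (fun _ ⟨x, h, e⟩ => by simpa [← e, b] using h)
    (by rintro (y | ⟨B, j | j | j⟩) <;> simp [b]) (by simp [c0]) m
  have a3 := fun j => dom hR (z3 A j) (hb A) (range (z2 A)) (fun _ ⟨x, h, e⟩ => by simpa [← e, r] using h)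
    (by rintro (y | ⟨B, j | j | j⟩) <;> simp [r, eq_comm]) (by simp [c0, c2]) m
  obtain ⟨p, pa, hp⟩ : ∃ p ≠ a, {x ∈ range (z1 A) | c x ≠ p}.ncard < {x ∈ range (z1 A) | c x = p}.ncard := by
    by_contra! e
    have u := e (a + 1) (by simp)
    have v := e (a + 2) ((by decide : ∀ a : Fin 3, a + 2 ≠ a) a)
    have w : ∀ x y : Fin 3, x ≠ y → (x ≠ y + 1 ↔ x = y + 2) ∧ (x ≠ y + 2 ↔ x = y + 1) := by decide
    have t := ncard_inter_add_ncard_sdiff_eq_ncard (range (z1 A)) {x | c x = a + 1}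
    rw [c1] at t
    rw [show {x ∈ range (z1 A) | c x ≠ a + 2} = {x ∈ range (z1 A) | c x = a + 1} from
      Set.ext fun x => and_congr_right fun ⟨j, e⟩ => e ▸ (w _ _ (a1 j)).2,
      ← show {x ∈ range (z1 A) | c x ≠ a + 1} = {x ∈ range (z1 A) | c x = a + 2} from
      Set.ext fun x => and_congr_right fun ⟨j, e⟩ => e ▸ (w _ _ (a1 j)).1] at v
    change {x ∈ range (z1 A) | c x = a + 1}.ncard + {x ∈ range (z1 A) | c x ≠ a + 1}.ncard = _ at t
    omega
  have b3 := fun j => dom hB (z3 A j) {x ∈ range (z1 A) | c x = p} {x ∈ range (z1 A) | c x ≠ p} (fun _ ⟨⟨x, e⟩, _⟩ => by simp [← e, b])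
    (by rintro (y | ⟨B, j | j | j⟩) <;> simp +contextual [b, eq_comm, em]) hp fun _ h => h.2
  have w : ∀ a p x y z : Fin 3, p ≠ a → x ≠ a → x ≠ p → (y ≠ a → y ≠ p → y = x) ∧ (z ≠ a → z ≠ x → z = p) := by decide
  have b2 := fun j => (w _ _ _ 0 _ pa (a3 0) (b3 0)).2 (a2 j) (dom hR (z2 A j) (range (z3 A)) (range (z1 A))
    (by simp [range_subset_iff, r]) (by rintro (y | ⟨B, j | j | j⟩) <;> simp [r, eq_comm]) (by simp [c1, c3])
    fun _ ⟨x, e⟩ => e ▸ (w _ _ _ _ 0 pa (a3 0) (b3 0)).1 (a3 x) (b3 x))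
  obtain ⟨_, ⟨j, rfl⟩, e⟩ := nonempty_of_ncard_ne_zero (ne_zero_of_lt hp)
  exact dom hR (z1 A j) (range (z2 A)) ∅ (by simp [range_subset_iff, r])
    (by rintro (y | ⟨B, j | j | j⟩) <;> simp [r, eq_comm]) (by simp [c2]) (fun _ ⟨x, e⟩ => e ▸ b2 x) e

end Pool.Agent.Results.MP_0e3695_co.NoMaj
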